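import Pool.Agent.Helper15.RA.GoalsH

/-!
# Packet RA-I2: `I_M` is a two-sided ideal
-/

set_option autoImplicit false

open LaurentPolynomial

noncomputable section

namespace Pool.Agent.Helper18.RA

open Pool.Agent.Helper15.RA

theorem t_one {I W H : Type} [Group W] [Ring H] [Algebra ℤ[T;T⁻¹] H] {M : CoxeterMatrix I}
    {cs : CoxeterSystem M W} {L : W → ℕ} (D : Hecke0 cs L H) : D.t 1 = 1 := by
  have h1 : ∀ Z : H, D.t 1 * Z = Z := by
    intro Z
    have h3 : Z ∈ Submodule.span ℤ[T;T⁻¹] (Set.range D.t) := by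
      rw [D.t.span_eq]
      trivial
    refine Submodule.span_induction (p := fun Z _ => D.t 1 * Z = Z) ?_ ?_ ?_ ?_ h3
    · rintro _ ⟨w, rfl⟩
      rw [D.mul 1 w (by rw [one_mul, cs.length_one, zero_add]), one_mul]
    · rw [mul_zero]
    · intro a b _ _ ha hb
      rw [mul_add, ha, hb]
    · intro r a _ ha
      rw [mul_smul_comm, ha]
  rw [← mul_one (D.t 1), h1]

theorem h_i2 (h2 : H_2) (hI : I_1) (hE : E_2) : I_2 := by
  intro I W V H _ _ _ X M Z Y hZ
  obtain ⟨-, -, -, -, -, -, -, hc1, hcs, -⟩ := h2 I W H X.M X.cs X.L X.wt X.D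
  obtain ⟨hCg, hCm, -, -, -, -, -⟩ := hI I W V H X
  obtain ⟨hG1, hG2, hG3, -, -, -, -, -, -⟩ := hE I W V H X
  have hα : ∀ v, ∀ g ∈ X.G v, g ≠ 1 → ∀ l, X.α g ≤ X.α l → l ≠ 1 := by
    intro v g hg hg1 l hl h
    rw [h, X.a_one] at hl
    exact absurd (X.a_pos v g hg hg1) (by omega)
  -- the generators
  have L1 : ∀ v, ∀ g ∈ X.G v, ∀ w, X.Ge (M + 1) w → X.D.c g * X.C w ∈ X.Idl M := by
    intro v g hg w hw
    obtain ⟨k, hk, hmin⟩ := X.gp.coset v w
    by_cases hk1 : k = 1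
    · subst hk1
      rw [one_mul] at hmin
      by_cases hg1 : g = 1
      · rw [hg1, hc1, one_mul]
        exact Submodule.subset_span ⟨w, hw, rfl⟩
      · have h3 : X.sl (g * w) = X.sl w + 1 := hmin g hg hg1
        rw [← X.C_mul v g hg hg1 w h3]
        refine Submodule.subset_span ⟨g * w, ?_, rfl⟩
        refine hG3 (M + 1) g w ?_ (Or.inr hw)
        rw [h3, X.gp.syl v g hg hg1]
        omega
    · have hk' : k⁻¹ ∈ X.G v := inv_mem hk
      have hk1' : k⁻¹ ≠ 1 := inv_ne_one.2 hk1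
      have hw' : k⁻¹ * (k * w) = w := inv_mul_cancel_left k w
      have h3 : X.sl (k⁻¹ * (k * w)) = X.sl (k * w) + 1 := hmin _ hk' hk1'
      have h4 : X.C w = X.D.c k⁻¹ * X.C (k * w) := by
        rw [← X.C_mul v _ hk' hk1' _ h3, hw']
      rw [h4, ← mul_assoc, X.isH g k⁻¹, Finsupp.sum, Finset.sum_mul]
      refine Submodule.sum_mem _ fun l hl => ?_
      have hl0 : X.h g k⁻¹ l ≠ 0 := Finsupp.mem_support_iff.1 hl
      have hlG : l ∈ X.G v := X.cl v g hg _ hk' l hl0
      have hle : X.α k⁻¹ ≤ X.α l := (X.p4 v g hg _ hk' l hl0).2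
      have hl1 : l ≠ 1 := hα v _ hk' hk1' l hle
      obtain ⟨h5, h6⟩ := hG1 v _ hk' l hlG hk1' hl1 (M + 1) (k * w) hle h3
      rw [smul_mul_assoc, ← X.C_mul v l hlG hl1 _ h5]
      refine Submodule.smul_mem _ _ (Submodule.subset_span ⟨_, h6 ?_, rfl⟩)
      rw [hw']
      exact hw
  have R1 : ∀ v, ∀ g ∈ X.G v, ∀ w, X.Ge (M + 1) w → X.C w * X.D.c g ∈ X.Idl M := by
    intro v g hg w hw
    obtain ⟨k, hk, hmin'⟩ := X.gp.coset v w⁻¹
    have hmin : ∀ h ∈ X.G v, h ≠ 1 → X.sl (w * k⁻¹ * h) = X.sl (w * k⁻¹) + 1 := by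
      intro h hh hh1
      have h3 := hmin' h⁻¹ (inv_mem hh) (inv_ne_one.2 hh1)
      rw [← X.gp.inv (h⁻¹ * (k * w⁻¹)), ← X.gp.inv (k * w⁻¹)] at h3
      simpa [mul_assoc] using h3
    by_cases hk1 : k = 1
    · subst hk1
      rw [inv_one, mul_one] at hmin
      by_cases hg1 : g = 1
      · rw [hg1, hc1, mul_one]
        exact Submodule.subset_span ⟨w, hw, rfl⟩
      · have h3 : X.sl (w * g) = X.sl w + X.sl g := by
          rw [hmin g hg hg1, X.gp.syl v g hg hg1]
        rw [← hCg v g hg, ← hCm w g h3]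
        exact Submodule.subset_span ⟨w * g, hG3 (M + 1) w g h3 (Or.inl hw), rfl⟩
    · have hw' : w * k⁻¹ * k = w := inv_mul_cancel_right w k
      have h3 : X.sl (w * k⁻¹ * k) = X.sl (w * k⁻¹) + 1 := hmin _ hk hk1
      have h4 : X.C w = X.C (w * k⁻¹) * X.D.c k := by
        rw [← hCg v k hk, ← hCm (w * k⁻¹) k (by rw [h3, X.gp.syl v k hk hk1]), hw']
      rw [h4, mul_assoc, X.isH k g, Finsupp.sum, Finset.mul_sum]
      refine Submodule.sum_mem _ fun l hl => ?_
      have hl0 : X.h k g l ≠ 0 := Finsupp.mem_support_iff.1 hl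
      have hlG : l ∈ X.G v := X.cl v k hk g hg l hl0
      have hle : X.α k ≤ X.α l := (X.p4 v k hk g hg l hl0).1
      have hl1 : l ≠ 1 := hα v _ hk hk1 l hle
      obtain ⟨h5, h6⟩ := hG2 v _ hk l hlG hk1 hl1 (M + 1) (w * k⁻¹) hle h3
      rw [mul_smul_comm, ← hCg v l hlG, ← hCm (w * k⁻¹) l (by rw [h5, X.gp.syl v l hlG hl1])]
      refine Submodule.smul_mem _ _ (Submodule.subset_span ⟨_, h6 ?_, rfl⟩)
      rw [hw']
      exact hw
  -- the idealizer
  let A : Subalgebra ℤ[T;T⁻¹] H :=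
    { carrier := {Y | (∀ Z ∈ X.Idl M, Y * Z ∈ X.Idl M) ∧ ∀ Z ∈ X.Idl M, Z * Y ∈ X.Idl M}
      mul_mem' := fun {a b} ha hb => ⟨fun Z hZ => by
          rw [mul_assoc]
          exact ha.1 _ (hb.1 Z hZ), fun Z hZ => by
          rw [← mul_assoc]
          exact hb.2 _ (ha.2 Z hZ)⟩
      add_mem' := fun {a b} ha hb => ⟨fun Z hZ => by
          rw [add_mul]
          exact add_mem (ha.1 Z hZ) (hb.1 Z hZ), fun Z hZ => by
          rw [mul_add]
          exact add_mem (ha.2 Z hZ) (hb.2 Z hZ)⟩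
      algebraMap_mem' := fun r => ⟨fun Z hZ => by
          rw [← Algebra.smul_def]
          exact Submodule.smul_mem _ _ hZ, fun Z hZ => by
          rw [← Algebra.commutes, ← Algebra.smul_def]
          exact Submodule.smul_mem _ _ hZ⟩ }
  have hcA : ∀ v, ∀ g ∈ X.G v, X.D.c g ∈ A := by
    intro v g hg
    refine ⟨fun Z hZ => ?_, fun Z hZ => ?_⟩
    · refine Submodule.span_induction (p := fun Z _ => X.D.c g * Z ∈ X.Idl M) ?_ ?_ ?_ ?_ hZ
      · rintro _ ⟨w, hw, rfl⟩
        exact L1 v g hg w hw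
      · rw [mul_zero]
        exact zero_mem _
      · intro a b _ _ ha hb
        rw [mul_add]
        exact add_mem ha hb
      · intro r a _ ha
        rw [mul_smul_comm]
        exact Submodule.smul_mem _ _ ha
    · refine Submodule.span_induction (p := fun Z _ => Z * X.D.c g ∈ X.Idl M) ?_ ?_ ?_ ?_ hZ
      · rintro _ ⟨w, hw, rfl⟩
        exact R1 v g hg w hw
      · rw [zero_mul]
        exact zero_mem _
      · intro a b _ _ ha hb
        rw [add_mul]
        exact add_mem ha hb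
      · intro r a _ ha
        rw [smul_mul_assoc]
        exact Submodule.smul_mem _ _ ha
  have hs : ∀ i, X.D.t (X.cs.simple i) ∈ A := by
    intro i
    obtain ⟨v, hv⟩ := X.simp i
    have h3 : X.D.t (X.cs.simple i) = X.D.c (X.cs.simple i) -
        (T (-(X.L (X.cs.simple i) : ℤ)) : ℤ[T;T⁻¹]) • (1 : H) := by
      rw [hcs i, add_sub_cancel_right]
    rw [h3]
    exact sub_mem (hcA v _ hv) (Subalgebra.smul_mem A (one_mem A) _)
  have ht : ∀ n : ℕ, ∀ w, X.cs.length w = n → X.D.t w ∈ A := by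
    intro n
    induction n with
    | zero =>
      intro w hw
      have hw1 : w = 1 := X.cs.length_eq_zero_iff.1 hw
      have h3 : X.D.t w = 1 := by
        rw [hw1]
        exact t_one X.D.toHecke0
      rw [h3]
      exact one_mem A
    | succ n ih =>
      intro w hw
      have hw1 : w ≠ 1 := by
        intro h
        rw [h, X.cs.length_one] at hw
        omega
      obtain ⟨i, hi⟩ := X.cs.exists_leftDescent_of_ne_one hw1
      have h3 := X.cs.isLeftDescent_iff.1 hi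
      have h4 : X.cs.simple i * (X.cs.simple i * w) = w := X.cs.simple_mul_simple_cancel_left i
      have h5 : X.D.t w = X.D.t (X.cs.simple i) * X.D.t (X.cs.simple i * w) := by
        rw [X.D.mul _ _ (by rw [h4, X.cs.length_simple]; omega), h4]
      rw [h5]
      exact mul_mem (hs i) (ih _ (by omega))
  have htop : Y ∈ A := by
    have h3 : Y ∈ Submodule.span ℤ[T;T⁻¹] (Set.range X.D.t) := by
      rw [X.D.t.span_eq]
      trivial
    have h4 : Submodule.span ℤ[T;T⁻¹] (Set.range X.D.t) ≤ Subalgebra.toSubmodule A := by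
      rw [Submodule.span_le]
      rintro _ ⟨w, rfl⟩
      exact ht _ w rfl
    exact h4 h3
  exact ⟨htop.1 Z hZ, htop.2 Z hZ⟩

end Pool.Agent.Helper18.RA
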